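import Mathlib
import Pool.Agent.H503Z.SwMain

set_option autoImplicit false

namespace Pool.Agent.Results.MP_5a8dcb_an.StrongSweepingOut

open MeasureTheory Filter

/-- Every sequence of positive integers with `a (n+1) / a n ≥ 1 + 1 / log n` for large `n`
is strong sweeping out (in every aperiodic system on a countably separated probability space,
in particular on every standard Borel or Lebesgue probability space). -/
theorem result (a : ℕ → ℕ) (hpos : ∀ n, 0 < a n)
    (hgrow : ∃ N : ℕ, ∀ n ≥ N, ((a (n + 1) : ℝ) / (a n : ℝ)) ≥ 1 + 1 / Real.log (n : ℝ))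
    (X : Type*) [MeasurableSpace X] [MeasurableSpace.CountablySeparated X]
    (μ : Measure X) [IsProbabilityMeasure μ] (T : X → X) (hT : MeasurePreserving T μ μ)
    (hap : ∀ k : ℕ, 1 ≤ k → μ {x | T^[k] x = x} = 0) (ε : ℝ) (hε : 0 < ε) :
    ∃ E : Set X, MeasurableSet E ∧ μ E < ENNReal.ofReal ε ∧
      ∀ᵐ x ∂μ,
        limsup (fun N : ℕ => (1 / (N : ℝ)) *
          ∑ n ∈ Finset.Icc 1 N, E.indicator (fun _ => (1 : ℝ)) (T^[a n] x)) atTop = 1 ∧
        liminf (fun N : ℕ => (1 / (N : ℝ)) *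
          ∑ n ∈ Finset.Icc 1 N, E.indicator (fun _ => (1 : ℝ)) (T^[a n] x)) atTop = 0 := by
  obtain ⟨N, hN⟩ := hgrow
  exact Pool.Agent.H503Z.Sw.sweep hT hap
    (Pool.Agent.H503Z.Sw.weak_fail (N0 := max N 2) hpos (le_max_right _ _)
      (fun n hn => hN n ((le_max_left _ _).trans hn))) ε hε

end Pool.Agent.Results.MP_5a8dcb_an.StrongSweepingOut
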